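import Pool.Agent.Helper45.AM.GoalsB
import Pool.Agent.Helper15.AM.GoalsG

/-!
# Project AM (MP_cc6379_al): packet AM-B8. The chain of prefixes.
-/

set_option autoImplicit false

open LaurentPolynomial Pool.Agent.Helper15.RA Pool.Agent.Helper45.AM Pool.Agent.Helper15.AM

noncomputable section

namespace Pool.Agent.Helper19.AM

section

variable {S W H : Type} [Group W] [Ring H] [Algebra ℤ[T;T⁻¹] H]

theorem XR_one {M : CoxeterMatrix S} (cs : CoxeterSystem M W) (P : Set S) : XR cs P 1 := by
  intro i _
  rw [one_mul, cs.length_simple, cs.length_one]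

/-- A non-trivial element `l` of `W_b`, not in `W_K`, splits as `z k`. -/
theorem split_l (hPA : G_PA) (hB1 : B_1) (X : AC S W H) (b : Bool) (x l : W)
    (hx : XR X.cs (X.F b) x) (hl : l ∈ par X.cs (X.F b)) (hlK : l ∉ par X.cs X.K) :
    ∃ z k, l = z * k ∧ z ∈ par X.cs (X.F b) ∧ z ∉ par X.cs X.K ∧ k ∈ par X.cs X.K ∧
      XR X.cs (X.F (!b)) (x * z) := by
  obtain ⟨q1, -, -, -, -, -, q7, q8, -⟩ := hB1 S W H X
  obtain ⟨z, k, hk, hz, hlzk⟩ := (hPA S W X.M X.cs X.K).2.1 l
  have hzb : z ∈ par X.cs (X.F b) := by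
    have : z = l * k⁻¹ := by rw [hlzk]; group
    rw [this]
    exact mul_mem hl (inv_mem (q1 b hk))
  have hz1 : z ≠ 1 := by
    rintro rfl
    apply hlK
    rw [hlzk, one_mul]
    exact hk
  refine ⟨z, k, hlzk, hzb, fun h => hz1 (q8 z (Or.inl hz) h), hk, ?_⟩
  exact q7 (!b) x z (by rw [Bool.not_not]; exact hx) (by rw [Bool.not_not]; exact hzb) hz hz1

end

theorem h_b_8 (hPA : G_PA) (hPC : G_PC) (hB1 : B_1) (hB3 : B_3) : B_8 := by
  intro S W H _ _ _ X
  have hB1' := hB1 S W H X
  have hB3' := hB3 S W H X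
  obtain ⟨q1, -, -, -, -, q6, q7, q8, -, -, q11, -, -⟩ := hB1'
  obtain ⟨s1, -, -, -, -, -, -, s8, -⟩ := hB3'
  -- uniqueness
  have uniq : ∀ (b : Bool) (x x' g g' : W), XR X.cs (X.F b) x → XR X.cs (X.F b) x' →
      g ∈ par X.cs (X.F b) → g' ∈ par X.cs (X.F b) → x * g = x' * g' → x = x' ∧ g = g' :=
    fun b => (hPC S W X.M X.cs (X.F b)).1
  have c1 : ∀ x x' w, X.Rc x w → X.Rc x' w → x = x' := by
    rintro x x' w ⟨b, l, hx, hl, hlK, hw⟩ ⟨b', l', hx', hl', hlK', hw'⟩
    by_cases hbb : b = b'
    · subst hbb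
      exact (uniq b x x' l l' hx hx' hl hl' (hw.symm.trans hw')).1
    · have hb' : b' = !b := by
        cases b <;> cases b' <;> simp_all
      subst hb'
      obtain ⟨z, k, hlzk, hzb, hzK, hk, hxz⟩ := split_l hPA hB1 X b x l hx hl hlK
      exfalso
      have h1 : x * z * k = x' * l' := by rw [mul_assoc, ← hlzk, ← hw, hw']
      have h2 := (uniq (!b) (x * z) x' k l' hxz hx' (q1 (!b) hk) hl' h1).2
      exact hlK' (h2 ▸ hk)
  have c2 : ∀ x w, X.Rc x w → X.sl w = X.sl x + 1 := by
    rintro x w ⟨b, l, hx, hl, hlK, hw⟩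
    rw [hw]
    exact s8 b x l hx hl hlK
  have ctr : ∀ x w, Relation.TransGen X.Rc x w → X.sl x < X.sl w := by
    intro x w h
    induction h with
    | single h => rw [c2 _ _ h]; omega
    | tail _ h ih => rw [c2 _ _ h]; omega
  have hsl1 : X.sl 1 = 0 := (s1 1).2 (one_mem _)
  -- the last step
  have last : ∀ (b : Bool) (x₁ x' : W), X.Rc x₁ x' → XR X.cs (X.F b) x' →
      ∃ a, x' = x₁ * a ∧ XR X.cs (X.F (!b)) x₁ ∧ a ∈ par X.cs (X.F (!b)) ∧ XR X.cs X.K a ∧ a ≠ 1 := by
    intro b x₁ x' hr hx'
    have hne : x' ≠ 1 := by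
      rintro rfl
      have := c2 _ _ hr
      omega
    obtain ⟨x'', a, h1, h2, h3, h4, h5, -⟩ := q6 b x' hx' hne
    have hr' : X.Rc x'' x' := ⟨!b, a, h2, h3, fun h => h5 (q8 a (Or.inl h4) h), h1⟩
    have h6 : x'' = x₁ := c1 _ _ _ hr' hr
    subst h6
    exact ⟨a, h1, h2, h3, h4, h5⟩
  refine ⟨c1, c2, ?_, ?_, ?_⟩
  · -- (3)
    have main : ∀ n : ℕ, ∀ b x g y, X.cs.length y = n → X.Tp b x g y →
        Relation.TransGen X.Rc x (x * g * y) := by
      intro n
      induction n using Nat.strong_induction_on with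
      | _ n ih =>
        rintro b x g y hn ⟨hx, hg, hgK, hy⟩
        by_cases hy1 : y = 1
        · subst hy1
          rw [mul_one]
          exact Relation.TransGen.single ⟨b, g, hx, hg, hgK, rfl⟩
        · obtain ⟨a, y', h1, h2, h3, h4, h5, h6⟩ := q11 b y hy hy1
          obtain ⟨z, k, hgzk, hzb, hzK, hk, hxz⟩ := split_l hPA hB1 X b x g hx hg hgK
          have haK : a ∉ par X.cs X.K := fun h => h5 (q8 a (Or.inr h4) h)
          have hlen : X.cs.length y' < n := by
            have : X.cs.length a ≠ 0 := by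
              rw [Ne, X.cs.length_eq_zero_iff]
              exact h5
            omega
          have htp : X.Tp (!b) (x * z) (k * a) y' := by
            refine ⟨hxz, mul_mem (q1 (!b) hk) h3, fun h => haK ?_, h2⟩
            have : a = k⁻¹ * (k * a) := by group
            rw [this]
            exact mul_mem (inv_mem hk) h
          have h7 := ih _ hlen (!b) (x * z) (k * a) y' rfl htp
          have h8 : x * z * (k * a) * y' = x * g * y := by
            rw [hgzk, h1]
            group
          rw [h8] at h7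
          exact Relation.TransGen.head ⟨b, z, hx, hzb, hzK, rfl⟩ h7
    exact fun b x g y h => main _ b x g y rfl h
  · -- (4)
    intro b x x' h hx'
    refine ⟨?_, ?_⟩
    · induction h generalizing b with
      | single h =>
        obtain ⟨a, h1, h2, h3, h4, h5⟩ := last b _ _ h hx'
        rw [h1, inv_mul_cancel_left]
        have := q7 b 1 a (XR_one X.cs _) h3 h4 h5
        rwa [one_mul] at this
      | tail _ h ih =>
        obtain ⟨a, h1, h2, h3, h4, h5⟩ := last b _ _ h hx'
        have h6 := ih (!b) h2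
        rw [h1, ← mul_assoc]
        exact q7 b _ a h6 h3 h4 h5
    · intro h1
      have h2 : x = x' := inv_mul_eq_one.1 h1
      have := ctr _ _ h
      rw [h2] at this
      exact lt_irrefl _ this
  · -- (5)
    intro x x' w h h'
    have key : x = x' ∨ Relation.TransGen X.Rc x x' ∨ Relation.TransGen X.Rc x' x := by
      induction h with
      | single h =>
        cases h' with
        | single h1 => exact Or.inl (c1 _ _ _ h h1)
        | tail h1 h2 =>
          have := c1 _ _ _ h h2
          subst this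
          exact Or.inr (Or.inr h1)
      | tail h0 h ih =>
        cases h' with
        | single h1 =>
          have := c1 _ _ _ h h1
          subst this
          exact Or.inr (Or.inl h0)
        | tail h1 h2 =>
          have := c1 _ _ _ h h2
          subst this
          exact ih h1
    refine ⟨fun hs => ?_, fun hs => ?_⟩
    · rcases key with h1 | h1 | h1
      · exact h1
      · have := ctr _ _ h1; omega
      · have := ctr _ _ h1; omega
    · rcases key with h1 | h1 | h1
      · rw [h1] at hs; omega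
      · exact h1
      · have := ctr _ _ h1; omega

end Pool.Agent.Helper19.AM
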