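import Pool.Agent.Helper15.AM.GoalsG

/-!
# Project AM (MP_cc6379_al): packet AM-GMT. Matsumoto's theorem for words with letters in `I'`.
-/

set_option autoImplicit false

open Pool.Agent.Helper15.RA Pool.Agent.Helper45.AM Pool.Agent.Helper15.AM

noncomputable section

namespace Pool.Agent.Helper19.AM

/-- The alternating list `i j i ⋯` of length `k`. -/
def alt {I' : Type} (i j : I') : ℕ → List I'
  | 0 => []
  | k + 1 => i :: alt j i k

theorem alt_length {I' : Type} (k : ℕ) : ∀ i j : I', (alt i j k).length = k := by
  induction k with
  | zero => exact fun _ _ => rfl
  | succ k ih => intro i j; simp [alt, ih]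

section

variable {S W : Type} [Group W] {M : CoxeterMatrix S} (cs : CoxeterSystem M W)

theorem wordProd_alt {I' : Type} (e : I' → S) (k : ℕ) : ∀ i j : I',
    cs.wordProd ((alt i j k).map e) = al cs (e i) (e j) k := by
  induction k with
  | zero => exact fun _ _ => cs.wordProd_nil
  | succ k ih =>
    intro i j
    simp only [alt, List.map_cons, cs.wordProd_cons, ih]
    rfl

theorem wordProd_alt' (k : ℕ) : ∀ i j : S, cs.wordProd (alt i j k) = al cs i j k := by
  induction k with
  | zero => exact fun _ _ => cs.wordProd_nil
  | succ k ih =>
    intro i j
    simp only [alt, cs.wordProd_cons, ih]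
    rfl

theorem al_len_le (k : ℕ) : ∀ i j : S, cs.length (al cs i j k) ≤ k := by
  intro i j
  rw [← wordProd_alt']
  exact (cs.length_wordProd_le _).trans (le_of_eq (alt_length k i j))

theorem wordProd_mem_par {I' : Type} (e : I' → S) (ω : List I') :
    cs.wordProd (ω.map e) ∈ par cs (Set.range e) := by
  induction ω with
  | nil =>
    rw [List.map_nil, cs.wordProd_nil]
    exact one_mem _
  | cons i ω ih =>
    rw [List.map_cons, cs.wordProd_cons]
    exact mul_mem (Subgroup.subset_closure ⟨e i, ⟨i, rfl⟩, rfl⟩) ih

end

theorem h_gmt (hPA : G_PA) (hPB : G_PB) (hD : G_D) : G_MT := by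
  intro S W _ M cs I' e he
  set cs' := (subE M e he).toCoxeterSystem with hcs'
  -- the induction on the length
  have main : ∀ n : ℕ, ∀ ω₁ ω₂ : List I', ω₁.length = n → cs.IsReduced (ω₁.map e) →
      cs.IsReduced (ω₂.map e) → cs.wordProd (ω₁.map e) = cs.wordProd (ω₂.map e) →
      cs'.wordProd ω₁ = cs'.wordProd ω₂ := by
    intro n
    induction n with
    | zero =>
      intro ω₁ ω₂ h0 h1 h2 hw
      have l1 : ω₁ = [] := List.length_eq_zero_iff.1 h0
      subst l1
      have l2 : ω₂ = [] := by
        have h3 : cs.length (cs.wordProd (ω₂.map e)) = (ω₂.map e).length := h2
        rw [← hw, List.map_nil, cs.wordProd_nil, cs.length_one, List.length_map] at h3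
        exact List.length_eq_zero_iff.1 h3.symm
      rw [l2]
    | succ n ih =>
      -- same head
      have same : ∀ (i : I') (ω η : List I'), (i :: ω).length = n + 1 →
          cs.IsReduced ((i :: ω).map e) → cs.IsReduced ((i :: η).map e) →
          cs.wordProd ((i :: ω).map e) = cs.wordProd ((i :: η).map e) →
          cs'.wordProd (i :: ω) = cs'.wordProd (i :: η) := by
        intro i ω η hl h1 h2 hw
        have t1 : cs.IsReduced (ω.map e) := by
          have := h1.drop 1
          simpa using this
        have t2 : cs.IsReduced (η.map e) := by
          have := h2.drop 1
          simpa using this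
        have t3 : cs.wordProd (ω.map e) = cs.wordProd (η.map e) := by
          rw [List.map_cons, List.map_cons, cs.wordProd_cons, cs.wordProd_cons] at hw
          exact mul_left_cancel hw
        have t4 : ω.length = n := by simpa using hl
        rw [cs'.wordProd_cons, cs'.wordProd_cons, ih ω η t4 t1 t2 t3]
      intro ω₁ ω₂ h0 h1 h2 hw
      have hlen2 : ω₂.length = n + 1 := by
        have h3 : cs.length (cs.wordProd (ω₂.map e)) = (ω₂.map e).length := h2
        have h4 : cs.length (cs.wordProd (ω₁.map e)) = (ω₁.map e).length := h1
        rw [List.length_map] at h3 h4
        rw [← h3, ← hw, h4, h0]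
      cases ω₁ with
      | nil => simp at h0
      | cons i ω₁ =>
        cases ω₂ with
        | nil => simp at hlen2
        | cons j ω₂ =>
          by_cases hij : i = j
          · subst hij
            exact same i ω₁ ω₂ h0 h1 h2 hw
          · set w := cs.wordProd ((i :: ω₁).map e) with hwdef
            have hlw : cs.length w = n + 1 := by
              have h4 : cs.length (cs.wordProd ((i :: ω₁).map e)) = ((i :: ω₁).map e).length := h1
              rw [hwdef, h4, List.length_map, h0]
            have d1 : cs.length (cs.simple (e i) * w) < cs.length w := by
              have : cs.simple (e i) * w = cs.wordProd (ω₁.map e) := by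
                rw [hwdef, List.map_cons, cs.wordProd_cons, ← mul_assoc,
                  cs.simple_mul_simple_self, one_mul]
              rw [this, hlw]
              have h5 := cs.length_wordProd_le (ω₁.map e)
              rw [List.length_map] at h5
              have h6 : ω₁.length = n := by simpa using h0
              omega
            have d2 : cs.length (cs.simple (e j) * w) < cs.length w := by
              have : cs.simple (e j) * w = cs.wordProd (ω₂.map e) := by
                rw [hw, List.map_cons, cs.wordProd_cons, ← mul_assoc,
                  cs.simple_mul_simple_self, one_mul]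
              rw [this, hlw]
              have h5 := cs.length_wordProd_le (ω₂.map e)
              rw [List.length_map] at h5
              have h6 : ω₂.length = n := by simpa using hlen2
              omega
            obtain ⟨g0, -, g2⟩ := hD S W M cs (e i) (e j) fun h => hij (he h)
            obtain ⟨hm, u, hu, hul⟩ := g2 w d1 d2
            -- `u` is in the parabolic subgroup
            have hal := al_len_le cs (M (e i) (e j)) (e i) (e j)
            have hsub := cs.length_mul_le (al cs (e i) (e j) (M (e i) (e j))) u
            rw [← hu] at hsub
            have hupar : u ∈ par cs (Set.range e) := by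
              have hp := (hPB S W M cs).2 (Set.range e)
              obtain ⟨-, -, -, -, p6, -⟩ := hp
              refine (p6 (al cs (e i) (e j) (M (e i) (e j))) u ?_ ?_).2
              · rw [← hu]
                omega
              · rw [← hu, hwdef]
                exact wordProd_mem_par cs e _
            obtain ⟨ω, hωr, hωP, hωu⟩ := (hPA S W M cs (Set.range e)).1 u hupar
            obtain ⟨η, hη⟩ : ∃ η : List I', η.map e = ω := by
              have : ω ∈ Set.range (List.map e) := by
                rw [Set.range_list_map]
                exact hωP
              exact this
            set m := M (e i) (e j) with hmdef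
            have hηl : η.length = cs.length u := by
              have h7 : cs.length (cs.wordProd ω) = ω.length := hωr
              rw [hωu, h7, ← hη, List.length_map]
            have w1 : cs.wordProd ((alt i j m ++ η).map e) = w := by
              rw [List.map_append, cs.wordProd_append, wordProd_alt, hη, ← hωu, hu]
            have w2 : cs.wordProd ((alt j i m ++ η).map e) = w := by
              rw [List.map_append, cs.wordProd_append, wordProd_alt, hη, ← hωu, ← g0, hu]
            have r1 : cs.IsReduced ((alt i j m ++ η).map e) := by
              change cs.length (cs.wordProd ((alt i j m ++ η).map e)) = _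
              rw [w1, List.length_map, List.length_append, alt_length, hηl, hul]
            have r2 : cs.IsReduced ((alt j i m ++ η).map e) := by
              change cs.length (cs.wordProd ((alt j i m ++ η).map e)) = _
              rw [w2, List.length_map, List.length_append, alt_length, hηl, hul]
            obtain ⟨m', hm'⟩ := Nat.exists_eq_succ_of_ne_zero hm
            have a1 : alt i j m ++ η = i :: (alt j i m' ++ η) := by rw [hm']; rfl
            have a2 : alt j i m ++ η = j :: (alt i j m' ++ η) := by rw [hm']; rfl
            have q1 : cs'.wordProd (i :: ω₁) = cs'.wordProd (alt i j m ++ η) := by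
              rw [a1]
              refine same i ω₁ _ h0 h1 (a1 ▸ r1) ?_
              rw [← a1, w1]
            have q2 : cs'.wordProd (j :: ω₂) = cs'.wordProd (alt j i m ++ η) := by
              rw [a2]
              refine same j ω₂ _ hlen2 h2 (a2 ▸ r2) ?_
              rw [← a2, w2, hw]
            have q3 : al cs' i j m = al cs' j i m :=
              (hD I' (subE M e he).Group (subE M e he) cs' i j hij).1
            rw [q1, q2, cs'.wordProd_append, cs'.wordProd_append, wordProd_alt', wordProd_alt', q3]
  intro ω₁ ω₂ h1 h2 hw
  exact main _ ω₁ ω₂ rfl h1 h2 hw

end Pool.Agent.Helper19.AM
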